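import Pool.Agent.H63.UP5

set_option autoImplicit false

namespace Pool.Agent.Results.MP_903cf7_lc.Strong

/-- the cellular automaton of radius `r` with local rule `f` -/
def ca {S : Type} (r : ℕ) (f : (Fin (2 * r + 1) → S) → S) (y : ℤ → S) : ℤ → S :=
  fun m => f fun s => y (m - r + (s : ℕ))

open Pool.Agent.H63.UP in
theorem result : ∃ (S : Type) (_ : Fintype S) (z : S) (r : ℕ) (f : (Fin (2 * r + 1) → S) → S)
    (x : ℤ → S), Nontrivial S ∧ f (fun _ => z) = z ∧ Function.Injective (ca r f) ∧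
      {i | x i ≠ z}.Finite ∧
      ∀ (k : ℕ) (w : Fin k → S) (i : ℤ), ∃ n : ℕ, ∀ j : Fin k,
        (ca r f)^[n] x (i + (j : ℕ)) = w j := by
  have e : ca 1 (fun s : Fin (2 * 1 + 1) → S => ((((P (s 1)).1.1, (P (s 0)).1.2.1, (P (s 2)).1.2.2),
      (P (s 0)).2.1, (P (s 2)).2.2) : S)) = F := by
    funext y m
    simp only [ca, F, Mv]
    rw [show m - (1 : ℕ) + ((1 : Fin (2 * 1 + 1)) : ℕ) = m by simp,
      show m - (1 : ℕ) + ((0 : Fin (2 * 1 + 1)) : ℕ) = m - 1 by simp,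
      show m - (1 : ℕ) + ((2 : Fin (2 * 1 + 1)) : ℕ) = m + 1 by simp; ring]
  refine ⟨S, inferInstance, z, 1, fun s => ((((P (s 1)).1.1, (P (s 0)).1.2.1, (P (s 2)).1.2.2),
      (P (s 0)).2.1, (P (s 2)).2.2) : S), x0 (4 ^ 43 : ℕ), inferInstance, ?_, ?_, x0_fin _, ?_⟩
  · simp only [P_z]
  · rw [e]
    intro y y' h
    funext i
    exact P_inj (congrFun (Mv_inj h) i)
  · intro k w i
    rw [e]
    obtain ⟨t, ht⟩ := dense (fun m => if h : (m - i).toNat < k then w ⟨_, h⟩ else z) (i.natAbs + k)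
    refine ⟨t, fun j => ?_⟩
    have := j.2
    rw [ht _ (by omega) (by omega)]
    simp

end Pool.Agent.Results.MP_903cf7_lc.Strong
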